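import Pool.Agent.H81.CBDefs
import Pool.Agent.H81.Main

/-!
# Fano conic bundles of relative Picard number two with non-reduced fibres exist

There is a Fano conic bundle `f : X → Y` with `ρ_X - ρ_Y = 2` which has a non-reduced fibre, with
`dim X = 4`.

The example: `Y = ℙ(O ⊕ O(2))` over `ℙ²`, with fibre coordinates `u, v`, and `X` is the double cover
`w² = u v r² + (u² + δ v²) t²` of a `ℙ¹`-bundle over `Y` with fibre coordinates `r, t`, where
`δ = z₀⁴ + z₁⁴ + z₂⁴`. Here `ρ_X = 4`, `ρ_Y = 2`, and the fibres over the curve `u = δ = 0` are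
double lines.
-/

namespace Pool.Agent.Results.MP_a703b5_ag.NonreducedFibres

open Pool.Agent.H945R2 Pool.Agent.H81

theorem result : ∃ (X Y : Variety) (f : Morphism X Y), f.IsFanoConicBundle ∧
    picardNumber X = picardNumber Y + 2 ∧ f.HasNonreducedFibre ∧ X.dim = 4 :=
  main

end Pool.Agent.Results.MP_a703b5_ag.NonreducedFibres
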